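import Pool.Agent.R475.AL
import Pool.Agent.R956.V1

/-!
# Averages of sequences with small second differences on sparse nets
-/

set_option autoImplicit false
set_option linter.unusedVariables false

namespace Pool.Agent.R644.NI

open Filter Topology Finset
open Pool.Agent.R475.AL

/-- between two points of a net the sequence exceeds its values there at most by the variation -/
lemma between {L : ℕ → ℝ} {s n t : ℕ} {β : ℝ} (hs : s ≤ n) (ht : n ≤ t) (h1 : L s ≤ β)
    (h2 : L t ≤ β) : L n ≤ β + ((t : ℝ) - s) * ∑ k ∈ Finset.Ico s t, V L k := by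
  obtain ⟨v, hv⟩ : ∃ v, v = ∑ k ∈ Finset.Ico s t, V L k := ⟨_, rfl⟩
  have hv0 : 0 ≤ v := by rw [hv]; exact Finset.sum_nonneg fun k _ => V_nonneg L k
  rw [← hv]
  have hst : (s : ℝ) ≤ t := by exact_mod_cast hs.trans ht
  have hsn : (s : ℝ) ≤ n := by exact_mod_cast hs
  have hnt : (n : ℝ) ≤ t := by exact_mod_cast ht
  rcases Nat.eq_or_lt_of_le ht with h0 | h0
  · rw [h0]
    nlinarith
  have hvar : ∀ a b : ℕ, s ≤ a → a ≤ b → b ≤ t →
      |(L (b + 1) - L b) - (L (a + 1) - L a)| ≤ v := by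
    intro a b ha hab hb
    refine (slope_var L a b hab).trans ?_
    rw [hv]
    exact Finset.sum_le_sum_of_subset_of_nonneg
      (Finset.Ico_subset_Ico ha hb) fun k _ _ => V_nonneg L k
  obtain ⟨τ, hτ⟩ : ∃ τ, τ = L (n + 1) - L n := ⟨_, rfl⟩
  by_cases hτ0 : τ ≤ 0
  · -- going left
    have key : ∀ j : ℕ, s ≤ j → j ≤ n → L j ≤ L s + ((j : ℝ) - s) * v := by
      intro j hj
      induction j, hj using Nat.le_induction with
      | base => intro _; simp
      | succ j hj ih =>
        intro hjn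
        have h3 := ih (by omega)
        have h4 := hvar j n hj (by omega) (by omega)
        rw [abs_le] at h4
        push_cast
        nlinarith [h4.1, h4.2]
    have h3 := key n hs le_rfl
    nlinarith
  · push Not at hτ0
    have key : ∀ j : ℕ, n ≤ j → j ≤ t → L n ≤ L j + ((j : ℝ) - n) * v := by
      intro j hj
      induction j, hj using Nat.le_induction with
      | base => intro _; simp
      | succ j hj ih =>
        intro hjn
        have h3 := ih (by omega)
        have h4 := hvar n j hs hj (by omega)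
        rw [abs_le] at h4
        push_cast
        nlinarith [h4.1, h4.2]
    have h3 := key t ht le_rfl
    nlinarith

/-- the double sum -/
lemma dbl {L : ℕ → ℝ} {N w : ℕ} (hw : w ≤ N) :
    ∑ n ∈ Finset.Ico N (2 * N), ∑ k ∈ Finset.Ico (n - w) (n + w), V L k ≤
      2 * w * ∑ k ∈ Finset.Ico (N - w) (2 * N + w), V L k := by
  have h1 : ∀ n ∈ Finset.Ico N (2 * N), ∑ k ∈ Finset.Ico (n - w) (n + w), V L k =
      ∑ i ∈ Finset.range (2 * w), V L (n - w + i) := by
    intro n hn
    rw [Finset.mem_Ico] at hn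
    rw [Finset.sum_Ico_eq_sum_range]
    congr 1
    congr 1
    omega
  rw [Finset.sum_congr rfl h1, Finset.sum_comm]
  have h2 : ∀ i ∈ Finset.range (2 * w), ∑ n ∈ Finset.Ico N (2 * N), V L (n - w + i) ≤
      ∑ k ∈ Finset.Ico (N - w) (2 * N + w), V L k := by
    intro i hi
    rw [Finset.mem_range] at hi
    have h3 : ∑ n ∈ Finset.Ico N (2 * N), V L (n - w + i) =
        ∑ k ∈ (Finset.Ico N (2 * N)).image (fun n => n - w + i), V L k := by
      rw [Finset.sum_image]
      intro a ha b hb hab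
      simp only [Finset.coe_Ico, Set.mem_Ico] at ha hb
      simp only at hab
      omega
    rw [h3]
    refine Finset.sum_le_sum_of_subset_of_nonneg ?_ fun k _ _ => V_nonneg L k
    intro k hk
    rw [Finset.mem_image] at hk
    obtain ⟨n, hn, rfl⟩ := hk
    rw [Finset.mem_Ico] at hn ⊢
    omega
  refine (Finset.sum_le_sum h2).trans (le_of_eq ?_)
  rw [Finset.sum_const, Finset.card_range, nsmul_eq_mul]
  push_cast
  ring

/-- the mean excess over the values on a net with gaps `δ √n` is at most of order `δ²` -/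
theorem mean_excess {L : ℕ → ℝ} {C : ℝ} (hC0 : 0 ≤ C)
    (hC : ∀ᶠ m : ℕ in atTop, ∑ k ∈ Finset.Ico m (6 * m), V L k ≤ C) {S : Set ℕ} {δ β : ℝ}
    (hδ : 0 < δ) (hS : ∀ᶠ n : ℕ in atTop, ∃ k ∈ S, n ≤ k ∧ (k : ℝ) ≤ n + δ * √(n : ℝ))
    (hβ : ∀ᶠ k : ℕ in atTop, k ∈ S → L k ≤ β) :
    ∀ᶠ N : ℕ in atTop, ∑ n ∈ Finset.Ico N (2 * N), max 0 (L n - β) ≤ 20 * C * δ ^ 2 * N := by
  obtain ⟨N1, hN1⟩ := eventually_atTop.1 hC
  obtain ⟨N2, hN2⟩ := eventually_atTop.1 hS
  obtain ⟨N3, hN3⟩ := eventually_atTop.1 hβ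
  -- `w / N` is small
  have hq : Tendsto (fun N : ℕ => √(2 * (N : ℝ))) atTop atTop :=
    Real.tendsto_sqrt_atTop.comp (tendsto_natCast_atTop_atTop.const_mul_atTop (by norm_num))
  filter_upwards [eventually_ge_atTop (2 * (N1 + N2 + N3 + 1)),
    hq.eventually_ge_atTop (8 * δ + 8 + 20 / δ)] with N hN hNq
  obtain ⟨x, hx⟩ : ∃ x : ℝ, x = √(2 * (N : ℝ)) := ⟨_, rfl⟩
  rw [← hx] at hNq
  have hx2 : x ^ 2 = 2 * N := by rw [hx, Real.sq_sqrt (by positivity)]
  have hx0 : 0 < x := by
    have : 0 < 20 / δ := by positivity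
    linarith
  obtain ⟨w, hw⟩ : ∃ w : ℕ, w = ⌈δ * x⌉₊ := ⟨_, rfl⟩
  have hw1 : δ * x ≤ w := by rw [hw]; exact Nat.le_ceil _
  have hw2 : (w : ℝ) < δ * x + 1 := by rw [hw]; exact Nat.ceil_lt_add_one (by positivity)
  have hdx : 20 ≤ δ * x := by
    have h20 : 20 / δ ≤ x := by linarith
    have := mul_le_mul_of_nonneg_left h20 hδ.le
    rwa [mul_div_cancel₀ _ hδ.ne'] at this
  have hx1 : 8 ≤ x := by
    have : 0 < 20 / δ := by positivity
    linarith
  have hwN' : 7 * (w : ℝ) ≤ 3 * N := by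
    have h8 : 8 * δ ≤ x := by
      have : 0 < 20 / δ := by positivity
      linarith
    nlinarith
  have hwN : 7 * w ≤ 3 * N := by exact_mod_cast hwN'
  have hw3 : (w : ℝ) ^ 2 ≤ 5 / 2 * δ ^ 2 * N := by
    have h1 : (w : ℝ) ≤ 21 / 20 * (δ * x) := by linarith
    have h2 : (w : ℝ) ^ 2 ≤ (21 / 20 * (δ * x)) ^ 2 :=
      pow_le_pow_left₀ (Nat.cast_nonneg _) h1 2
    have h3 : (21 / 20 * (δ * x)) ^ 2 = 441 / 400 * δ ^ 2 * x ^ 2 := by ring
    rw [h3, hx2] at h2
    have : 0 ≤ δ ^ 2 * N := by positivity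
    nlinarith
  have hpt : ∀ n ∈ Finset.Ico N (2 * N), max 0 (L n - β) ≤
      2 * w * ∑ k ∈ Finset.Ico (n - w) (n + w), V L k := by
    intro n hn
    rw [Finset.mem_Ico] at hn
    have hv0 : 0 ≤ ∑ k ∈ Finset.Ico (n - w) (n + w), V L k :=
      Finset.sum_nonneg fun k _ => V_nonneg L k
    obtain ⟨s, hsS, hs1, hs2⟩ := hN2 (n - w) (by omega)
    obtain ⟨t, htS, ht1, ht2⟩ := hN2 n (by omega)
    have hsq : ∀ m : ℕ, m ≤ 2 * N → δ * √(m : ℝ) ≤ w := by
      intro m hm
      refine le_trans (mul_le_mul_of_nonneg_left ?_ hδ.le) hw1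
      rw [hx]
      apply Real.sqrt_le_sqrt
      exact_mod_cast hm
    have hs3 : s ≤ n := by
      have h1 := hsq (n - w) (by omega)
      have h2 : (s : ℝ) ≤ ((n - w + w : ℕ) : ℝ) := by
        push_cast
        linarith
      have h3 : s ≤ n - w + w := by exact_mod_cast h2
      omega
    have ht3 : t ≤ n + w := by
      have h1 := hsq n (by omega)
      have h2 : (t : ℝ) ≤ ((n + w : ℕ) : ℝ) := by
        push_cast
        linarith
      exact_mod_cast h2
    have h4 := between hs3 ht1 (hN3 s (by omega) hsS) (hN3 t (by omega) htS)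
    have h5 : ∑ k ∈ Finset.Ico s t, V L k ≤ ∑ k ∈ Finset.Ico (n - w) (n + w), V L k :=
      Finset.sum_le_sum_of_subset_of_nonneg (Finset.Ico_subset_Ico hs1 ht3)
        fun k _ _ => V_nonneg L k
    have h6 : (t : ℝ) - s ≤ 2 * w := by
      have h7 : t ≤ s + 2 * w := by omega
      have h8 : (t : ℝ) ≤ s + 2 * w := by exact_mod_cast h7
      linarith
    have h9 : 0 ≤ ∑ k ∈ Finset.Ico s t, V L k := Finset.sum_nonneg fun k _ => V_nonneg L k
    refine max_le (by positivity) ?_
    have h10 : ((t : ℝ) - s) * ∑ k ∈ Finset.Ico s t, V L k ≤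
        2 * w * ∑ k ∈ Finset.Ico (n - w) (n + w), V L k :=
      mul_le_mul h6 h5 h9 (by positivity)
    linarith
  have hC1 : ∑ k ∈ Finset.Ico (N - w) (2 * N + w), V L k ≤ C := by
    refine le_trans (Finset.sum_le_sum_of_subset_of_nonneg ?_ fun k _ _ => V_nonneg L k)
      (hN1 (N - w) (by omega))
    exact Finset.Ico_subset_Ico le_rfl (by omega)
  calc ∑ n ∈ Finset.Ico N (2 * N), max 0 (L n - β)
      ≤ ∑ n ∈ Finset.Ico N (2 * N), 2 * w * ∑ k ∈ Finset.Ico (n - w) (n + w), V L k :=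
        Finset.sum_le_sum hpt
    _ = 2 * w * ∑ n ∈ Finset.Ico N (2 * N), ∑ k ∈ Finset.Ico (n - w) (n + w), V L k := by
        rw [Finset.mul_sum]
    _ ≤ 2 * w * (2 * w * ∑ k ∈ Finset.Ico (N - w) (2 * N + w), V L k) :=
        mul_le_mul_of_nonneg_left (dbl (by omega)) (by positivity)
    _ ≤ 2 * w * (2 * w * C) := by gcongr
    _ = 4 * C * (w : ℝ) ^ 2 := by ring
    _ ≤ 4 * C * (5 / 2 * δ ^ 2 * N) := mul_le_mul_of_nonneg_left hw3 (by positivity)
    _ ≤ 20 * C * δ ^ 2 * N := by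
        have : 0 ≤ C * δ ^ 2 * N := by positivity
        nlinarith

/-- **the doubling recursion for the means**: `G` with `2 G k = G (2 k) - H k` -/
theorem mean_double {G H : ℕ → ℝ} {g h e : ℝ} (he : 0 < e)
    (hrec : ∀ k, 1 ≤ k → 2 * (G k - g) ≤ (G (2 * k) - g) + (h - H k))
    (hinc : Tendsto (fun k => G (k + 1) - G k) atTop (𝓝 0))
    (hsub : Tendsto (fun k : ℕ => G k / k) atTop (𝓝 0))
    (hH : ∀ᶠ N : ℕ in atTop, ∑ n ∈ Finset.Ico N (2 * N), max 0 (h - H n) ≤ e * N) :
    ∀ᶠ N : ℕ in atTop, ∑ n ∈ Finset.Ico N (2 * N), max 0 (G n - g) ≤ 2 * e * N := by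
  obtain ⟨U, hU⟩ : ∃ U : ℕ → ℝ, U = fun N : ℕ =>
      (∑ n ∈ Finset.Ico N (2 * N), max 0 (G n - g)) / N := ⟨_, rfl⟩
  have hinc1 := hinc.abs
  rw [abs_zero] at hinc1
  obtain ⟨N1, hN1⟩ := eventually_atTop.1 (hinc1.eventually_lt_const he)
  obtain ⟨N2, hN2⟩ := eventually_atTop.1 hH
  -- recursion
  have hR : ∀ N, N1 + N2 + 1 ≤ N → 2 * U N ≤ U (2 * N) + 2 * e := by
    intro N hN
    have hN0 : (0 : ℝ) < N := by exact_mod_cast (show 0 < N by omega)
    have a1 : ∀ k ∈ Finset.Ico N (2 * N), 2 * max 0 (G k - g) ≤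
        (max 0 (G (2 * k) - g) + max 0 (G (2 * k + 1) - g)) / 2 + e / 2 + max 0 (h - H k) := by
      intro k hk
      rw [Finset.mem_Ico] at hk
      have b1 := hrec k (by omega)
      have b2 := hN1 (2 * k) (by omega)
      rw [abs_lt] at b2
      have m1 := le_max_right 0 (G (2 * k) - g)
      have m2 := le_max_left 0 (G (2 * k) - g)
      have m3 := le_max_right 0 (G (2 * k + 1) - g)
      have m4 := le_max_left 0 (G (2 * k + 1) - g)
      have m5 := le_max_right 0 (h - H k)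
      have m6 := le_max_left 0 (h - H k)
      rcases le_total 0 (G k - g) with c | c
      · rw [max_eq_right c]
        linarith [b2.1, b2.2]
      · rw [max_eq_left c]
        linarith
    have a2 := Finset.sum_le_sum a1
    rw [← Finset.mul_sum, Finset.sum_add_distrib, Finset.sum_add_distrib, Finset.sum_const,
      Nat.card_Ico, nsmul_eq_mul] at a2
    have a3 : ∑ k ∈ Finset.Ico N (2 * N),
        (max 0 (G (2 * k) - g) + max 0 (G (2 * k + 1) - g)) / 2 =
        (∑ n ∈ Finset.Ico (2 * N) (2 * (2 * N)), max 0 (G n - g)) / 2 := by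
      rw [← Finset.sum_div]
      congr 1
      have gen : ∀ (F : ℕ → ℝ) (a : ℕ), ∑ k ∈ Finset.Ico N (N + a), (F (2 * k) + F (2 * k + 1)) =
          ∑ n ∈ Finset.Ico (2 * N) (2 * N + 2 * a), F n := by
        intro F a
        induction a with
        | zero => simp
        | succ a ih =>
          rw [show N + (a + 1) = N + a + 1 by ring, Finset.sum_Ico_succ_top (by omega), ih,
            show 2 * N + 2 * (a + 1) = 2 * N + 2 * a + 1 + 1 by ring,
            Finset.sum_Ico_succ_top (by omega), Finset.sum_Ico_succ_top (by omega),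
            show 2 * (N + a) = 2 * N + 2 * a by ring]
          ring
      have := gen (fun n => max 0 (G n - g)) N
      rw [show N + N = 2 * N by ring, show 2 * N + 2 * N = 2 * (2 * N) by ring] at this
      exact this
    rw [a3] at a2
    have a4 := hN2 N (by omega)
    have e1 : ((2 * N - N : ℕ) : ℝ) = N := by
      rw [show 2 * N - N = N by omega]
    rw [e1] at a2
    rw [hU]
    simp only
    obtain ⟨s1, hs1⟩ : ∃ s1, s1 = ∑ n ∈ Finset.Ico N (2 * N), max 0 (G n - g) := ⟨_, rfl⟩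
    obtain ⟨s2, hs2⟩ : ∃ s2, s2 = ∑ n ∈ Finset.Ico (2 * N) (2 * (2 * N)), max 0 (G n - g) :=
      ⟨_, rfl⟩
    rw [← hs1, ← hs2] at a2
    rw [← hs1, ← hs2]
    have a5 : 2 * s1 ≤ s2 / 2 + N * (e / 2) + e * N := by linarith
    push_cast
    have a6 : 2 * (s1 / N) = (2 * s1) / N := by ring
    have a7 : s2 / (2 * (N : ℝ)) + 2 * e = (s2 / 2 + 2 * e * N) / N := by
      field_simp
    rw [a6, a7]
    apply div_le_div_of_nonneg_right _ hN0.le
    nlinarith
  -- `U N / N → 0`
  have hUN : Tendsto (fun N : ℕ => (U N - 2 * e) / N) atTop (𝓝 0) := by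
    have c0 : ∀ N : ℕ, 0 ≤ U N := by
      intro N
      rw [hU]
      exact div_nonneg (Finset.sum_nonneg fun k _ => le_max_left _ _) (Nat.cast_nonneg _)
    have c1 : Tendsto (fun N : ℕ => U N / N) atTop (𝓝 0) := by
      rw [Metric.tendsto_atTop]
      intro ρ hρ
      have d1 := hsub.abs
      rw [abs_zero] at d1
      obtain ⟨M1, hM1⟩ := eventually_atTop.1 (d1.eventually_lt_const (show 0 < ρ / 4 by positivity))
      have d2 : Tendsto (fun N : ℕ => |g| / (N : ℝ)) atTop (𝓝 0) :=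
        tendsto_const_div_atTop_nhds_zero_nat _
      obtain ⟨M2, hM2⟩ := eventually_atTop.1 (d2.eventually_lt_const (show 0 < ρ / 4 by positivity))
      refine ⟨M1 + M2 + 1, fun N hN => ?_⟩
      have hN0 : (0 : ℝ) < N := by exact_mod_cast (show 0 < N by omega)
      rw [Real.dist_eq, sub_zero, abs_of_nonneg (div_nonneg (c0 N) hN0.le), div_lt_iff₀ hN0]
      have d3 : ∀ n ∈ Finset.Ico N (2 * N), max 0 (G n - g) ≤ ρ / 2 * N + |g| := by
        intro n hn
        rw [Finset.mem_Ico] at hn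
        have hn0 : (0 : ℝ) < n := by exact_mod_cast (show 0 < n by omega)
        have f1 := hM1 n (by omega)
        rw [abs_div, abs_of_pos hn0, div_lt_iff₀ hn0] at f1
        have f2 : (n : ℝ) ≤ 2 * N := by exact_mod_cast (show n ≤ 2 * N by omega)
        refine max_le (by positivity) ?_
        have f3 := le_abs_self (G n)
        have f4 := neg_abs_le g
        nlinarith
      have d4 := Finset.sum_le_sum d3
      rw [Finset.sum_const, Nat.card_Ico, nsmul_eq_mul, show 2 * N - N = N by omega] at d4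
      have f5 := hM2 N (by omega)
      rw [div_lt_iff₀ hN0] at f5
      rw [hU]
      simp only
      rw [div_lt_iff₀ hN0]
      have f6 : (N : ℝ) * |g| ≤ N * (ρ / 4 * N) := mul_le_mul_of_nonneg_left f5.le hN0.le
      have f7 : 0 < ρ * N * N := by positivity
      nlinarith
    have c2 : Tendsto (fun N : ℕ => 2 * e / (N : ℝ)) atTop (𝓝 0) :=
      tendsto_const_div_atTop_nhds_zero_nat _
    have c3 := c1.sub c2
    rw [sub_zero] at c3
    exact c3.congr fun N => by rw [sub_div]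
  filter_upwards [eventually_ge_atTop (N1 + N2 + 1)] with N hN
  have hN0 : (0 : ℝ) < N := by exact_mod_cast (show 0 < N by omega)
  have k1 := Pool.Agent.R956.V1.nonpos_of_double (g := fun N : ℕ => U N - 2 * e) hUN
    (n := N) (by omega) (fun J => by
      have k2 : N1 + N2 + 1 ≤ 2 ^ J * N :=
        hN.trans (Nat.le_mul_of_pos_left N (by positivity))
      have := hR (2 ^ J * N) k2
      linarith)
  rw [hU] at k1
  simp only at k1
  have k3 : (∑ n ∈ Finset.Ico N (2 * N), max 0 (G n - g)) / N ≤ 2 * e := by linarith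
  rwa [div_le_iff₀ hN0] at k3

end Pool.Agent.R644.NI
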