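import Pool.Agent.R644.NI.Av
import Pool.Agent.R956.K3

/-!
# Non-intersection ratios `r (2 n) / r n ^ 2`: means
-/

set_option autoImplicit false
set_option linter.unusedVariables false

namespace Pool.Agent.R644.NI

open Filter Topology Finset
open Pool.Agent.R475.AL
open Pool.Agent.Y943.SL (Wk)

lemma nc_stretch {y : ℕ → ℝ} {D : ℝ} (h : Nc y D) (p : ℕ) :
    Nc (fun k => y (2 * k + p)) (2 * D) := by
  have h0 := h.D0
  have ht : Tendsto (fun k : ℕ => 2 * k + p) atTop atTop :=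
    tendsto_atTop_mono (fun k => by simp only [id]; omega) tendsto_id
  refine ⟨by linarith, ?_, ?_⟩
  · have c0 := h.conv
    filter_upwards [ht.eventually c0, ht.eventually ((tendsto_add_atTop_nat 1).eventually c0),
      ht.eventually ((tendsto_add_atTop_nat 2).eventually c0), eventually_ge_atTop 1]
      with k h1 h2 h3 hk
    have hk0 : (0 : ℝ) < k := by exact_mod_cast hk
    have e1 : 2 * (k + 1) + p = 2 * k + p + 2 := by ring
    have e2 : 2 * (k + 2) + p = 2 * k + p + 4 := by ring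
    simp only [e1, e2]
    have d1 : D / ((2 * k + p : ℕ) : ℝ) ≤ D / (2 * k) := by
      apply div_le_div_of_nonneg_left h0 (by positivity)
      push_cast
      linarith [(Nat.cast_nonneg p : (0 : ℝ) ≤ p)]
    have d2 : D / ((2 * k + p + 1 : ℕ) : ℝ) ≤ D / (2 * k) := by
      apply div_le_div_of_nonneg_left h0 (by positivity)
      push_cast
      linarith [(Nat.cast_nonneg p : (0 : ℝ) ≤ p)]
    have d3 : D / ((2 * k + p + 2 : ℕ) : ℝ) ≤ D / (2 * k) := by
      apply div_le_div_of_nonneg_left h0 (by positivity)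
      push_cast
      linarith [(Nat.cast_nonneg p : (0 : ℝ) ≤ p)]
    have d4 : 2 * D / (k : ℝ) = 4 * (D / (2 * k)) := by
      field_simp
      ring
    rw [d4]
    linarith
  · have i1 := h.inc.comp ht
    have i2 := h.inc.comp (tendsto_atTop_mono (fun k : ℕ => by
      show id k ≤ 2 * k + p + 1
      simp only [id]; omega) tendsto_id)
    have i3 := i1.add i2
    rw [add_zero] at i3
    refine i3.congr fun k => ?_
    simp only [Function.comp]
    rw [show 2 * (k + 1) + p = 2 * k + p + 1 + 1 by ring]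
    ring

lemma nc_lin (θ : ℝ) (p : ℕ) : Nc (fun k => θ * Real.log ((2 * k + p : ℕ) : ℝ)) (2 * |θ|) := by
  exact nc_stretch (nc_log θ) p

variable {c : ℕ → ℝ} {μ K β : ℝ}

lemma nc_r (W : Wk c μ) (S : Pool.Agent.R956.V1.Sq (fun n => c n / μ ^ n) K β) {p : ℕ}
    (hp : p ≤ 1) : ∃ D, Nc (fun k => Real.log (c (2 * k + p) / μ ^ (2 * k + p))) D := by
  obtain ⟨D, hD⟩ := Pool.Agent.R956.K3.kc W hp
  refine ⟨D, nc_of_kc hD ?_⟩
  have h1 : Tendsto (fun n : ℕ => c (n + 2) / μ ^ (n + 2) / (c n / μ ^ n)) atTop (𝓝 1) := by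
    rw [tendsto_iff_norm_sub_tendsto_zero]
    have h2 : Tendsto (fun n => K * Pool.Agent.R956.D2.f n) atTop (𝓝 0) := by
      simpa using Pool.Agent.R956.D2.f_tendsto.const_mul K
    refine squeeze_zero' (Eventually.of_forall fun n => norm_nonneg _) ?_ h2
    filter_upwards [eventually_ge_atTop 2] with n hn
    exact S.rate n hn
  have ht : Tendsto (fun k : ℕ => 2 * k + p) atTop atTop :=
    tendsto_atTop_mono (fun k => by simp only [id]; omega) tendsto_id
  exact (h1.comp ht).congr fun k => by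
    simp only [Function.comp]
    rw [show 2 * (k + 1) + p = 2 * k + p + 2 by ring]

/-- the logarithm of `P n * n ^ α`, `n = 2 k + p` -/
noncomputable def LL (r : ℕ → ℝ) (α : ℝ) (p k : ℕ) : ℝ :=
  Real.log (r (2 * (2 * k + p))) - 2 * Real.log (r (2 * k + p)) +
    α * Real.log ((2 * k + p : ℕ) : ℝ)

theorem tvL (W : Wk c μ) (S : Pool.Agent.R956.V1.Sq (fun n => c n / μ ^ n) K β) {p : ℕ}
    (hp : p ≤ 1) (α : ℝ) : ∃ C : ℝ, 0 < C ∧ ∀ᶠ m : ℕ in atTop,
      ∑ k ∈ Finset.Ico m (6 * m), V (LL (fun n => c n / μ ^ n) α p) k ≤ C := by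
  obtain ⟨D, hD⟩ := nc_r W S (p := 0) (by norm_num)
  obtain ⟨D', hD'⟩ := nc_r W S hp
  obtain ⟨C, hC0, hC⟩ := tv_sub (nc_stretch hD p) ((hD'.add hD').add (nc_lin (-α) p))
  refine ⟨C, hC0, ?_⟩
  filter_upwards [hC] with m hm
  refine le_trans (le_of_eq ?_) hm
  refine Finset.sum_congr rfl fun k _ => ?_
  congr 1
  funext k
  unfold LL
  simp only [add_zero]
  ring

/-- **means of the excess of the logarithms** -/
theorem meanP (W : Wk c μ) (S : Pool.Agent.R956.V1.Sq (fun n => c n / μ ^ n) K β) {p : ℕ}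
    (hp : p ≤ 1) (α : ℝ) : ∃ C : ℝ, 0 < C ∧ ∀ (T : Set ℕ) (δ u v : ℝ), 0 < δ →
      (∀ᶠ n : ℕ in atTop, ∃ k ∈ T, n ≤ k ∧ (k : ℝ) ≤ n + δ * √(n : ℝ)) →
      (∀ᶠ k : ℕ in atTop, k ∈ T → u ≤ LL (fun n => c n / μ ^ n) α p k ∧
        LL (fun n => c n / μ ^ n) α p k ≤ v) →
      (∀ᶠ N : ℕ in atTop, ∑ k ∈ Finset.Ico N (2 * N),
        max 0 (LL (fun n => c n / μ ^ n) α p k - v) ≤ C * δ ^ 2 * N) ∧
      (∀ᶠ N : ℕ in atTop, ∑ k ∈ Finset.Ico N (2 * N),
        max 0 (u - LL (fun n => c n / μ ^ n) α p k) ≤ C * δ ^ 2 * N) := by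
  obtain ⟨C, hC0, hC⟩ := tvL W S hp α
  refine ⟨20 * C, by positivity, fun T δ u v hδ hT huv => ⟨?_, ?_⟩⟩
  · exact mean_excess hC0.le hC hδ hT (huv.mono fun k hk hkT => (hk hkT).2)
  · have h1 := mean_excess (L := fun k => - LL (fun n => c n / μ ^ n) α p k) (β := -u) hC0.le (by
      filter_upwards [hC] with m hm
      refine le_trans (le_of_eq ?_) hm
      exact Finset.sum_congr rfl fun k _ => V_neg _ k) hδ hT (huv.mono fun k hk hkT => by
        have := (hk hkT).1
        linarith)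
    filter_upwards [h1] with N hN
    refine le_trans (le_of_eq ?_) hN
    refine Finset.sum_congr rfl fun k _ => ?_
    congr 1
    ring

/-- the logarithm of `r n / n ^ α`, `n = 2 k` -/
noncomputable def GG (r : ℕ → ℝ) (α : ℝ) (k : ℕ) : ℝ :=
  Real.log (r (2 * k)) - α * Real.log ((2 * k : ℕ) : ℝ)

lemma GG_double (r : ℕ → ℝ) (α : ℝ) {k : ℕ} (hk : 1 ≤ k) :
    2 * GG r α k = GG r α (2 * k) + α * Real.log 2 - LL r α 0 k := by
  unfold GG LL
  have hk0 : (0 : ℝ) < k := by exact_mod_cast hk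
  have e : Real.log ((2 * (2 * k) : ℕ) : ℝ) = Real.log 2 + Real.log ((2 * k : ℕ) : ℝ) := by
    rw [show ((2 * (2 * k) : ℕ) : ℝ) = 2 * ((2 * k : ℕ) : ℝ) by push_cast; ring,
      Real.log_mul (by norm_num) (by positivity)]
  simp only [add_zero]
  rw [e]
  ring

lemma GG_inc (W : Wk c μ) (S : Pool.Agent.R956.V1.Sq (fun n => c n / μ ^ n) K β) (α : ℝ) :
    Tendsto (fun k => GG (fun n => c n / μ ^ n) α (k + 1) - GG (fun n => c n / μ ^ n) α k)
      atTop (𝓝 0) := by
  obtain ⟨D, hD⟩ := nc_r W S (p := 0) (by norm_num)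
  have h1 := (hD.add (nc_lin (-α) 0)).inc
  refine h1.congr fun k => ?_
  unfold GG
  simp only [add_zero]
  ring

lemma GG_sub (W : Wk c μ) (S : Pool.Agent.R956.V1.Sq (fun n => c n / μ ^ n) K β) (α : ℝ) :
    Tendsto (fun k : ℕ => GG (fun n => c n / μ ^ n) α k / k) atTop (𝓝 0) := by
  have h1 := Pool.Agent.R956.V1.over_n S α 0
  have ht : Tendsto (fun k : ℕ => 2 * k) atTop atTop :=
    tendsto_atTop_mono (fun k => by simp only [id]; omega) tendsto_id
  have h2 := (h1.comp ht).const_mul 2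
  rw [mul_zero] at h2
  refine h2.congr fun k => ?_
  unfold GG
  simp only [Function.comp]
  rcases Nat.eq_zero_or_pos k with h0 | h0
  · subst h0
    simp
  · have hk0 : (k : ℝ) ≠ 0 := by exact_mod_cast (show k ≠ 0 by omega)
    push_cast
    field_simp
    ring

theorem meanG (W : Wk c μ) (S : Pool.Agent.R956.V1.Sq (fun n => c n / μ ^ n) K β) (α : ℝ)
    {e : ℝ} (he : 0 < e) :
    (∀ u : ℝ, (∀ᶠ N : ℕ in atTop, ∑ k ∈ Finset.Ico N (2 * N),
        max 0 (u - LL (fun n => c n / μ ^ n) α 0 k) ≤ e * N) →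
      ∀ᶠ N : ℕ in atTop, ∑ k ∈ Finset.Ico N (2 * N),
        max 0 (GG (fun n => c n / μ ^ n) α k - (α * Real.log 2 - u)) ≤ 2 * e * N) ∧
    (∀ v : ℝ, (∀ᶠ N : ℕ in atTop, ∑ k ∈ Finset.Ico N (2 * N),
        max 0 (LL (fun n => c n / μ ^ n) α 0 k - v) ≤ e * N) →
      ∀ᶠ N : ℕ in atTop, ∑ k ∈ Finset.Ico N (2 * N),
        max 0 ((α * Real.log 2 - v) - GG (fun n => c n / μ ^ n) α k) ≤ 2 * e * N) := by
  constructor
  · intro u hu
    refine mean_double (H := LL (fun n => c n / μ ^ n) α 0) (h := u) he (fun k hk => ?_)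
      (GG_inc W S α) (GG_sub W S α) hu
    have := GG_double (fun n => c n / μ ^ n) α hk
    linarith
  · intro v hv
    have i1 := (GG_inc W S α).neg
    rw [neg_zero] at i1
    have i2 := (GG_sub W S α).neg
    rw [neg_zero] at i2
    have h1 := mean_double (G := fun k => - GG (fun n => c n / μ ^ n) α k)
      (H := fun k => - LL (fun n => c n / μ ^ n) α 0 k) (h := -v) (g := -(α * Real.log 2 - v)) he
      (fun k hk => by
        have := GG_double (fun n => c n / μ ^ n) α hk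
        linarith) (i1.congr fun k => by ring) (i2.congr fun k => by ring) (by
        filter_upwards [hv] with N hN
        refine le_trans (le_of_eq ?_) hN
        refine Finset.sum_congr rfl fun k _ => ?_
        congr 1
        ring)
    filter_upwards [h1] with N hN
    refine le_trans (le_of_eq ?_) hN
    refine Finset.sum_congr rfl fun k _ => ?_
    congr 1
    ring

end Pool.Agent.R644.NI
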